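import Mathlib

/-!
# Sign patterns and orders

Let `R` be an arbitrary relation on a finite set (a digraph). To every sign pattern `σ` we attach a
rank function `ρ σ` such that every partial sign pattern `τ` on a set `S` can be extended to a sign
pattern `σ` with the property: every `i ∈ S` without out-neighbours in `S` has a smaller rank than
all of its out-neighbours. The main point is the induction in which the sign of one vertex is not
available (`Good R V (V.erase z)`, for relations without mutual pairs).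
-/

set_option autoImplicit false

namespace Pool.Agent.N148.HD

open Finset

variable {ι : Type*} [DecidableEq ι]

/-- There is a scheme for the vertices in `V` which uses only the signs of the elements of `B`. -/
def Good (R : ι → ι → Prop) (V B : Finset ι) : Prop :=
  ∃ ρ : (ι → Bool) → ι → ℕ, (∀ σ i, ρ σ i ≤ V.card) ∧
    (∀ σ σ' : ι → Bool, (∀ i ∈ B, σ i = σ' i) → ρ σ = ρ σ') ∧
    ∀ (S : Finset ι) (τ : ι → Bool), ∃ σ : ι → Bool, (∀ i ∈ S, i ∈ B → σ i = τ i) ∧
      ∀ i ∈ S, i ∈ V → (∀ l ∈ S, l ∈ V → ¬ R i l) → ∀ j ∈ V, R i j → ρ σ i < ρ σ j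

/-- a vertex without out-neighbours comes last -/
lemma Good.last {R : ι → ι → Prop} {V B : Finset ι} {v : ι} (hv : v ∈ V)
    (hout : ∀ j ∈ V, ¬ R v j) (h : Good R (V.erase v) (B.erase v)) : Good R V B := by
  obtain ⟨ρ, h1, h2, h3⟩ := h
  have hc := card_erase_add_one hv
  refine ⟨fun σ i => if i = v then V.card else ρ σ i, fun σ i => ?_, fun σ σ' hσ => ?_,
    fun S τ => ?_⟩
  · have := h1 σ i
    dsimp only
    split_ifs <;> omega
  · have := h2 σ σ' fun i hi => hσ i (mem_of_mem_erase hi)
    funext i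
    dsimp only
    rw [this]
  · obtain ⟨σ, h4, h5⟩ := h3 S τ
    set σ' : ι → Bool := fun i => if i = v then τ v else σ i with hσ'
    have e : ρ σ' = ρ σ := h2 _ _ fun i hi => by
      rw [hσ']
      dsimp only
      rw [if_neg (ne_of_mem_erase hi)]
    refine ⟨σ', fun i hiS hiB => ?_, fun i hiS hiV hi j hjV hij => ?_⟩
    · rw [hσ']
      dsimp only
      by_cases hiv : i = v
      · rw [if_pos hiv, hiv]
      · rw [if_neg hiv]
        exact h4 i hiS (mem_erase.2 ⟨hiv, hiB⟩)
    · have hiv : i ≠ v := fun h => hout j hjV (h ▸ hij)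
      dsimp only
      rw [if_neg hiv, e]
      by_cases hjv : j = v
      · rw [if_pos hjv]
        have := h1 σ i
        omega
      · rw [if_neg hjv]
        exact h5 i hiS (mem_erase.2 ⟨hiv, hiV⟩) (fun l hl hlV => hi l hl (mem_of_mem_erase hlV)) j
          (mem_erase.2 ⟨hjv, hjV⟩) hij

/-- the test of the signs of `v` and `w`: if they are equal, `v` comes last; if they are different,
`v` comes first and its in-neighbours come last -/
lemma Good.test {R : ι → ι → Prop} [DecidableRel R] {V B B₂ : Finset ι} {v w : ι} (hv : v ∈ V)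
    (hw : w ∈ V) (hvw : v ≠ w) (hR : R v w) (hvB : v ∈ B) (hwB : w ∈ B)
    (hE : Good R (V.erase v) (B.erase v))
    (hB₂ : B₂ ⊆ B) (hv₂ : v ∉ B₂) (hw₂ : w ∉ B₂)
    (hU : Good R ((V.erase v).filter fun i => ¬ R i v) B₂) : Good R V B := by
  obtain ⟨ρ₁, a1, a2, a3⟩ := hE
  obtain ⟨ρ₂, b1, b2, b3⟩ := hU
  have hc := card_erase_add_one hv
  set V₂ := (V.erase v).filter fun i => ¬ R i v with hV₂
  have hV₂c : V₂.card ≤ (V.erase v).card := card_le_card (filter_subset _ _)
  have hV₂c' : ∀ j ∈ V, j ≠ v → j ∉ V₂ → V₂.card + 1 < V.card := by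
    intro j hjV hjv hj
    have h1 : V₂ ⊆ (V.erase v).erase j := fun i hi => mem_erase.2
      ⟨fun h => hj (h ▸ hi), (mem_filter.1 hi).1⟩
    have h2 := card_le_card h1
    have h3 := card_erase_add_one (mem_erase.2 ⟨hjv, hjV⟩)
    omega
  refine ⟨fun σ i => if σ v = σ w then (if i = v then V.card else ρ₁ σ i) else
    (if i = v then 0 else if i ∈ V₂ then ρ₂ σ i + 1 else V.card), fun σ i => ?_,
    fun σ σ' hσ => ?_, fun S τ => ?_⟩
  · have h1 := a1 σ i
    have h2 := b1 σ i
    dsimp only
    split_ifs <;> omega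
  · have h1 := a2 σ σ' fun i hi => hσ i (mem_of_mem_erase hi)
    have h2 := b2 σ σ' fun i hi => hσ i (hB₂ hi)
    funext i
    dsimp only
    rw [h1, h2, hσ v hvB, hσ w hwB]
  · by_cases hE : v ∉ S ∨ (w ∈ S ∧ τ v = τ w)
    · -- equal signs
      obtain ⟨σ, h4, h5⟩ := a3 S τ
      set σ' : ι → Bool := fun i => if i = v then σ w else σ i with hσ'
      have hσv : σ' v = σ w := by rw [hσ']; dsimp only; rw [if_pos rfl]
      have hσn : ∀ i, i ≠ v → σ' i = σ i := fun i hi => by rw [hσ']; dsimp only; rw [if_neg hi]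
      have e : ρ₁ σ' = ρ₁ σ := a2 _ _ fun i hi => hσn i (ne_of_mem_erase hi)
      refine ⟨σ', fun i hiS hiB => ?_, fun i hiS hiV hi j hjV hij => ?_⟩
      · by_cases hiv : i = v
        · subst hiv
          rcases hE with h | ⟨h, h'⟩
          · exact absurd hiS h
          · rw [hσv, h']
            exact h4 w h (mem_erase.2 ⟨hvw.symm, hwB⟩)
        · rw [hσn i hiv]
          exact h4 i hiS (mem_erase.2 ⟨hiv, hiB⟩)
      · dsimp only
        have heq : σ' v = σ' w := by rw [hσv, hσn w hvw.symm]
        rw [if_pos heq, if_pos heq]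
        have hiv : i ≠ v := by
          rintro rfl
          rcases hE with h | ⟨h, h'⟩
          · exact h hiS
          · exact hi w h hw hR
        rw [if_neg hiv, e]
        by_cases hjv : j = v
        · rw [if_pos hjv]
          have := a1 σ i
          omega
        · rw [if_neg hjv]
          exact h5 i hiS (mem_erase.2 ⟨hiv, hiV⟩) (fun l hl hlV => hi l hl (mem_of_mem_erase hlV)) j
            (mem_erase.2 ⟨hjv, hjV⟩) hij
    · -- different signs
      push Not at hE
      obtain ⟨hvS, hwS⟩ := hE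
      obtain ⟨σ, h4, h5⟩ := b3 S τ
      set σ' : ι → Bool := fun i => if i ∈ B₂ then σ i else if i = w then !(τ v) else τ i with hσ'
      have hσ2 : ∀ i ∈ B₂, σ' i = σ i := fun i hi => by rw [hσ']; dsimp only; rw [if_pos hi]
      have hσv : σ' v = τ v := by
        rw [hσ']; dsimp only; rw [if_neg hv₂, if_neg hvw]
      have hσw : σ' w = !(τ v) := by
        rw [hσ']; dsimp only; rw [if_neg hw₂, if_pos rfl]
      have e : ρ₂ σ' = ρ₂ σ := b2 _ _ hσ2
      refine ⟨σ', fun i hiS hiB => ?_, fun i hiS hiV hi j hjV hij => ?_⟩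
      · by_cases hi2 : i ∈ B₂
        · rw [hσ2 i hi2]
          exact h4 i hiS hi2
        · by_cases hiw : i = w
          · subst hiw
            rw [hσw]
            have := hwS hiS
            revert this
            cases τ v <;> cases τ i <;> simp
          · rw [hσ']
            dsimp only
            rw [if_neg hi2, if_neg hiw]
      · dsimp only
        have hne : ¬ σ' v = σ' w := by
          rw [hσv, hσw]
          cases τ v <;> simp
        rw [if_neg hne, if_neg hne]
        by_cases hiv : i = v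
        · rw [if_pos hiv]
          have hjv : j ≠ v := by
            rintro rfl
            rw [hiv] at hij
            exact hi j hvS hjV (hiv ▸ hij)
          rw [if_neg hjv]
          split_ifs
          · omega
          · omega
        · rw [if_neg hiv]
          have hiR : ¬ R i v := hi v hvS hv
          have hi2 : i ∈ V₂ := mem_filter.2 ⟨mem_erase.2 ⟨hiv, hiV⟩, hiR⟩
          have hjv : j ≠ v := by
            rintro rfl
            exact hiR hij
          rw [if_pos hi2, if_neg hjv, e]
          by_cases hj2 : j ∈ V₂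
          · rw [if_pos hj2]
            have := h5 i hiS hi2 (fun l hl hlV => hi l hl
              (mem_of_mem_erase (mem_filter.1 hlV).1)) j hj2 hij
            omega
          · rw [if_neg hj2]
            have h6 := hV₂c' j hjV hjv hj2
            have h7 := b1 σ i
            omega

/-- The two statements, by induction. -/
theorem good_aux (R : ι → ι → Prop) (hirr : ∀ i, ¬ R i i) : ∀ (n : ℕ) (V : Finset ι), V.card = n →
    Good R V V ∧ ((∀ i ∈ V, ∀ j ∈ V, ¬ (R i j ∧ R j i)) → ∀ z ∈ V, Good R V (V.erase z)) := by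
  classical
  intro n
  induction n using Nat.strong_induction_on with
  | _ n ih =>
  intro V hV
  have hsub : ∀ v ∈ V, ((V.erase v).card < n ∧
      ((V.erase v).filter fun i => ¬ R i v).card < n) := by
    intro v hv
    have h1 := card_erase_add_one hv
    have h2 : ((V.erase v).filter fun i => ¬ R i v).card ≤ (V.erase v).card :=
      card_le_card (filter_subset _ _)
    omega
  refine ⟨?_, fun hor z hz => ?_⟩
  · by_cases hmut : ∃ v ∈ V, ∃ w ∈ V, R v w ∧ R w v
    · obtain ⟨v, hv, w, hw, h1, h2⟩ := hmut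
      have hne : v ≠ w := fun h => hirr v (by rw [← h] at h1; exact h1)
      refine Good.test (B₂ := (V.erase v).filter fun i => ¬ R i v) hv hw hne h1 hv hw
        (ih _ (hsub v hv).1 _ rfl).1 ?_ ?_ ?_ (ih _ (hsub v hv).2 _ rfl).1
      · exact (filter_subset _ _).trans (erase_subset _ _)
      · intro h
        exact (notMem_erase v V) (mem_filter.1 h).1
      · intro h
        exact (mem_filter.1 h).2 h2
    · by_cases harc : ∃ v ∈ V, ∃ w ∈ V, R v w
      · obtain ⟨v, hv, w, hw, h1⟩ := harc
        have hne : v ≠ w := fun h => hirr v (by rw [← h] at h1; exact h1)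
        have h2 : ¬ R w v := fun h2 => hmut ⟨v, hv, w, hw, h1, h2⟩
        have hw2 : w ∈ (V.erase v).filter fun i => ¬ R i v :=
          mem_filter.2 ⟨mem_erase.2 ⟨hne.symm, hw⟩, h2⟩
        have hsub2 : ((V.erase v).filter fun i => ¬ R i v) ⊆ V :=
          (filter_subset _ _).trans (erase_subset _ _)
        refine Good.test (B₂ := ((V.erase v).filter fun i => ¬ R i v).erase w) hv hw hne h1 hv hw
          (ih _ (hsub v hv).1 _ rfl).1 ?_ ?_ (notMem_erase w _)
          ((ih _ (hsub v hv).2 _ rfl).2 ?_ w hw2)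
        · exact (erase_subset _ _).trans hsub2
        · intro h
          exact (notMem_erase v V) (mem_filter.1 (mem_of_mem_erase h)).1
        · intro i hi j hj hij
          exact hmut ⟨i, hsub2 hi, j, hsub2 hj, hij.1, hij.2⟩
      · refine ⟨fun _ _ => 0, fun _ _ => Nat.zero_le _, fun _ _ _ => rfl, fun S τ => ⟨τ, fun _ _ _ => rfl,
          fun i _ hiV _ j hjV hij => absurd ⟨i, hiV, j, hjV, hij⟩ harc⟩⟩
  · by_cases hz1 : ∃ v ∈ V, R z v
    · obtain ⟨v, hv, hzv⟩ := hz1
      have hvz : v ≠ z := fun h => hirr z (by rw [h] at hzv; exact hzv)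
      have hvz' : ¬ R v z := fun h => hor z hz v hv ⟨hzv, h⟩
      have hor1 : ∀ i ∈ V.erase v, ∀ j ∈ V.erase v, ¬ (R i j ∧ R j i) := fun i hi j hj =>
        hor i (mem_of_mem_erase hi) j (mem_of_mem_erase hj)
      have hE := (ih _ (hsub v hv).1 _ rfl).2 hor1 z (mem_erase.2 ⟨hvz.symm, hz⟩)
      rw [erase_right_comm] at hE
      by_cases hw1 : ∃ w ∈ V, R v w
      · obtain ⟨w, hw, h1⟩ := hw1
        have hne : v ≠ w := fun h => hirr v (by rw [← h] at h1; exact h1)
        have hwz : w ≠ z := fun h => hvz' (h ▸ h1)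
        have h2 : ¬ R w v := fun h2 => hor v hv w hw ⟨h1, h2⟩
        have hw2 : w ∈ (V.erase v).filter fun i => ¬ R i v :=
          mem_filter.2 ⟨mem_erase.2 ⟨hne.symm, hw⟩, h2⟩
        have hsub2 : ((V.erase v).filter fun i => ¬ R i v) ⊆ V :=
          (filter_subset _ _).trans (erase_subset _ _)
        refine Good.test (B₂ := ((V.erase v).filter fun i => ¬ R i v).erase w) hv hw hne h1
          (mem_erase.2 ⟨hvz, hv⟩) (mem_erase.2 ⟨hwz, hw⟩) hE ?_ ?_ (notMem_erase w _)
          ((ih _ (hsub v hv).2 _ rfl).2 ?_ w hw2)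
        · intro i hi
          have hi' := mem_filter.1 (mem_of_mem_erase hi)
          refine mem_erase.2 ⟨?_, mem_of_mem_erase hi'.1⟩
          rintro rfl
          exact hi'.2 hzv
        · intro h
          exact (notMem_erase v V) (mem_filter.1 (mem_of_mem_erase h)).1
        · intro i hi j hj
          exact hor i (hsub2 hi) j (hsub2 hj)
      · push Not at hw1
        exact Good.last hv hw1 hE
    · push Not at hz1
      refine Good.last hz hz1 ?_
      rw [erase_eq_of_notMem (notMem_erase z _)]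
      exact (ih _ (hsub z hz).1 _ rfl).1

/-- **The scheme.** -/
theorem scheme [Fintype ι] (R : ι → ι → Prop) (hirr : ∀ i, ¬ R i i) :
    ∃ ρ : (ι → Bool) → ι → ℕ, (∀ σ i, ρ σ i ≤ Fintype.card ι) ∧
      ∀ (S : Finset ι) (τ : ι → Bool), ∃ σ : ι → Bool, (∀ i ∈ S, σ i = τ i) ∧
        ∀ i ∈ S, (∀ l ∈ S, ¬ R i l) → ∀ j, R i j → ρ σ i < ρ σ j := by
  obtain ⟨ρ, h1, -, h3⟩ := (good_aux R hirr _ (univ : Finset ι) rfl).1
  refine ⟨ρ, h1, fun S τ => ?_⟩
  obtain ⟨σ, h4, h5⟩ := h3 S τ
  exact ⟨σ, fun i hi => h4 i hi (mem_univ i), fun i hi hil j hij =>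
    h5 i hi (mem_univ i) (fun l hl _ => hil l hl) j (mem_univ j) hij⟩

end Pool.Agent.N148.HD
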