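import Mathlib

/-!
# Moving a point of a convex set into a direction of descent of all support functionals
-/

set_option autoImplicit false

namespace Pool.Agent.N148.HD

open Finset

variable {ι : Type*} [Fintype ι]

/-- the set of functionals `φ ≤ 1` on `P` -/
def Pol (P : Set (ι → ℝ)) : Set (ι → ℝ) := {φ | ∀ y ∈ P, ∑ i, φ i * y i ≤ 1}

lemma pol_bdd {P : Set (ι → ℝ)} (h0 : (0 : ι → ℝ) ∈ interior P) :
    ∃ R : ℝ, 0 < R ∧ ∀ φ ∈ Pol P, ∀ i, |φ i| ≤ R := by
  classical
  obtain ⟨r, hr, hball⟩ := Metric.isOpen_iff.1 (isOpen_interior (s := P)) 0 h0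
  refine ⟨(r / 2)⁻¹, by positivity, fun φ hφ i => ?_⟩
  have key : ∀ t : ℝ, |t| < r → φ i * t ≤ 1 := by
    intro t ht
    have h1 : (Pi.single i t : ι → ℝ) ∈ P := by
      apply interior_subset
      apply hball
      rw [Metric.mem_ball, dist_zero_right, Pi.norm_single, Real.norm_eq_abs]
      exact ht
    have h2 := hφ _ h1
    rw [Finset.sum_eq_single i] at h2
    · rwa [Pi.single_eq_same] at h2
    · intro j _ hj
      rw [Pi.single_eq_of_ne hj, mul_zero]
    · intro h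
      exact absurd (mem_univ i) h
  have h1 := key (r / 2) (by rw [abs_of_pos (by positivity)]; linarith)
  have h2 := key (-(r / 2)) (by rw [abs_neg, abs_of_pos (by positivity)]; linarith)
  have hr2 : 0 < r / 2 := by positivity
  rw [abs_le]
  constructor
  · rw [neg_le, inv_eq_one_div, le_div_iff₀ hr2]
    linarith
  · rw [inv_eq_one_div, le_div_iff₀ hr2]
    exact h1

lemma pol_closed (P : Set (ι → ℝ)) : IsClosed (Pol P) := by
  have : Pol P = ⋂ y ∈ P, {φ : ι → ℝ | ∑ i, φ i * y i ≤ 1} := by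
    ext φ
    simp [Pol]
  rw [this]
  refine isClosed_biInter fun y _ => isClosed_le ?_ continuous_const
  exact continuous_finsetSum _ fun i _ => (continuous_apply i).mul continuous_const

lemma pol_compact {P : Set (ι → ℝ)} (h0 : (0 : ι → ℝ) ∈ interior P) : IsCompact (Pol P) := by
  obtain ⟨R, hR, hb⟩ := pol_bdd h0
  refine IsCompact.of_isClosed_subset (isCompact_Icc (a := fun _ : ι => -R) (b := fun _ => R))
    (pol_closed P) fun φ hφ => ?_
  rw [Set.mem_Icc]
  exact ⟨fun i => (abs_le.1 (hb φ hφ i)).1, fun i => (abs_le.1 (hb φ hφ i)).2⟩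

/-- bipolar theorem -/
lemma mem_of_pol {P : Set (ι → ℝ)} (hc : Convex ℝ P) (hcl : IsClosed P)
    (h0 : (0 : ι → ℝ) ∈ interior P) {q : ι → ℝ} (h : ∀ φ ∈ Pol P, ∑ i, φ i * q i ≤ 1) : q ∈ P := by
  classical
  by_contra hq
  obtain ⟨f, s, h1, h2⟩ := geometric_hahn_banach_closed_point hc hcl hq
  have hs : 0 < s := by
    have := h1 0 (interior_subset h0)
    simpa using this
  have hf : ∀ y : ι → ℝ, f y = ∑ i, f (Pi.single i 1) * y i := by
    intro y
    have e : y = ∑ i, y i • (Pi.single i (1 : ℝ) : ι → ℝ) := by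
      funext j
      rw [Finset.sum_apply, Finset.sum_eq_single j]
      · simp
      · intro i _ hi
        rw [Pi.smul_apply, Pi.single_eq_of_ne (Ne.symm hi), smul_zero]
      · intro h
        exact absurd (mem_univ j) h
    conv_lhs => rw [e]
    rw [map_sum]
    refine Finset.sum_congr rfl fun i _ => ?_
    rw [map_smul, smul_eq_mul, mul_comm]
  have hsum : ∀ y : ι → ℝ, ∑ i, (f (Pi.single i 1) / s) * y i = f y / s := by
    intro y
    rw [hf y, Finset.sum_div]
    exact Finset.sum_congr rfl fun i _ => by ring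
  have h3 := h (fun i => f (Pi.single i 1) / s) (fun y hy => by
    rw [hsum, div_le_one hs]
    exact (h1 y hy).le)
  rw [hsum, div_le_one hs] at h3
  linarith

/-- **The piece lemma.** -/
lemma piece {P : Set (ι → ℝ)} (hc : Convex ℝ P) (hcl : IsClosed P)
    (h0 : (0 : ι → ℝ) ∈ interior P) {u w : ι → ℝ} (hu : u ∈ P)
    (h : ∀ φ ∈ Pol P, ∑ i, φ i * u i = 1 → ∑ i, φ i * w i < 0) :
    ∃ ε₀ : ℝ, 0 < ε₀ ∧ ∀ ε : ℝ, 0 < ε → ε ≤ ε₀ → u + ε • w ∈ P := by
  classical
  have hcont : ∀ v : ι → ℝ, Continuous fun φ : ι → ℝ => ∑ i, φ i * v i := fun v =>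
    continuous_finsetSum _ fun i _ => (continuous_apply i).mul continuous_const
  set Q : Set (ι → ℝ) := {φ | φ ∈ Pol P ∧ 0 ≤ ∑ i, φ i * w i} with hQ
  have hQc : IsCompact Q := by
    have : Q = Pol P ∩ {φ | 0 ≤ ∑ i, φ i * w i} := rfl
    rw [this]
    exact (pol_compact h0).inter_right (isClosed_le continuous_const (hcont w))
  have hlin : ∀ (φ : ι → ℝ) (ε : ℝ), ∑ i, φ i * (u + ε • w) i =
      ∑ i, φ i * u i + ε * ∑ i, φ i * w i := by
    intro φ ε
    rw [Finset.mul_sum, ← Finset.sum_add_distrib]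
    refine Finset.sum_congr rfl fun i _ => ?_
    rw [Pi.add_apply, Pi.smul_apply, smul_eq_mul]
    ring
  rcases Q.eq_empty_or_nonempty with hQe | hQn
  · refine ⟨1, one_pos, fun ε hε _ => mem_of_pol hc hcl h0 fun φ hφ => ?_⟩
    have h1 : ∑ i, φ i * w i < 0 := by
      by_contra hcon
      push Not at hcon
      have : φ ∈ Q := ⟨hφ, hcon⟩
      rw [hQe] at this
      exact this
    rw [hlin]
    have h2 := hφ u hu
    nlinarith
  · obtain ⟨φ₁, hφ₁, hmax₁⟩ := hQc.exists_isMaxOn hQn (hcont u).continuousOn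
    obtain ⟨φ₂, hφ₂, hmax₂⟩ := hQc.exists_isMaxOn hQn (hcont w).continuousOn
    have hlt : ∑ i, φ₁ i * u i < 1 := by
      refine lt_of_le_of_ne (hφ₁.1 u hu) fun heq => ?_
      have := h φ₁ hφ₁.1 heq
      linarith [hφ₁.2]
    set γ : ℝ := 1 - ∑ i, φ₁ i * u i with hγ
    have hγ0 : 0 < γ := by rw [hγ]; linarith
    set W : ℝ := ∑ i, φ₂ i * w i with hW
    have hW0 : 0 ≤ W := hφ₂.2
    refine ⟨γ / (W + 1), by positivity, fun ε hε hε2 => mem_of_pol hc hcl h0 fun φ hφ => ?_⟩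
    rw [hlin]
    by_cases h1 : 0 ≤ ∑ i, φ i * w i
    · have h2 : ∑ i, φ i * u i ≤ ∑ i, φ₁ i * u i := hmax₁ ⟨hφ, h1⟩
      have h3 : ∑ i, φ i * w i ≤ W := hmax₂ ⟨hφ, h1⟩
      have h4 : ε * (W + 1) ≤ γ := by
        rwa [le_div_iff₀ (by positivity)] at hε2
      have h5 : ε * ∑ i, φ i * w i ≤ ε * W := mul_le_mul_of_nonneg_left h3 hε.le
      have h6 : ε * W ≤ ε * (W + 1) := mul_le_mul_of_nonneg_left (by linarith) hε.le
      linarith
    · push Not at h1
      have h2 := hφ u hu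
      nlinarith

end Pool.Agent.N148.HD
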