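import Mathlib
import Pool.Agent.R753.Sums
import Pool.Agent.N148.HD.Comb
import Pool.Agent.N148.HD.Piece

/-!
# Unconditional sums of convex bodies with planar constraints
-/

set_option autoImplicit false

namespace Pool.Agent.N148.HD

open Finset Filter Topology
open Pool.Agent.R753 (Sol interior_of_lt body)

variable {ι : Type} [Fintype ι]

/-- membership in `P` depends on two coordinates only -/
def Planar (P : Set (ι → ℝ)) : Prop :=
  ∃ i j : ι, ∀ x ∈ P, ∀ y : ι → ℝ, y i = x i → y j = x j → y ∈ P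

/-- `P` is orthogonal to the coordinate hyperplanes: the support functionals at the points of a
coordinate hyperplane do not depend on the coordinate -/
def Ortho (P : Set (ι → ℝ)) : Prop :=
  ∀ u ∈ P, ∀ φ : ι → ℝ, (∀ y ∈ P, ∑ i, φ i * y i ≤ 1) → ∑ i, φ i * u i = 1 →
    ∀ j, u j = 0 → φ j = 0

/-- the relation of the sharp pairs -/
def Shp (M : Set (ι → ℝ)) (i j : ι) : Prop :=
  i ≠ j ∧ ∃ c h : ℝ, 0 < c ∧ (∃ y ∈ M, y i = h) ∧ ∀ y ∈ M, y i + c * y j ≤ h

omit [Fintype ι] in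
lemma Shp.irrefl (M : Set (ι → ℝ)) (i : ι) : ¬ Shp M i i := fun h => h.1 rfl

/-- The direction of descent. -/
lemma descent [DecidableEq ι] {M P : Set (ι → ℝ)} (hMP : M ⊆ P) (hP : Sol P) (hM : Sol M)
    (hPO : Planar P ∨ Ortho P) {u : ι → ℝ} (hu : u ∈ M) (hu0 : ∀ i, 0 ≤ u i)
    {κ D δ R B : ℝ} (hκ : 0 < κ) (hD : 0 < D) (hδ : 0 < δ) (hδ1 : δ ≤ 1) (hB : 0 < B)
    (hR : ∀ i, u i ≤ R) (hδ2 : δ * (4 * D * B * R) < κ) (hPB : ∀ φ ∈ Pol P, ∀ i, |φ i| ≤ B)
    {ρ : ι → ℕ} (hρ : ∀ i, 0 < u i → (∀ l, 0 < u l → ¬ Shp M i l) → ∀ j, Shp M i j → ρ i < ρ j)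
    {w : ι → ℝ} (hw1 : ∀ i, 0 < u i → w i = -(κ / 2 * δ ^ ρ i))
    (hw2 : ∀ i, u i = 0 → w i = 2 * D * δ ^ ρ i)
    {φ : ι → ℝ} (hφ : φ ∈ Pol P) (hφu : ∑ i, φ i * u i = 1) : ∑ i, φ i * w i < 0 := by
  have hcase : ∀ i, 0 < u i ∨ u i = 0 := fun i => (hu0 i).lt_or_eq.imp id Eq.symm
  -- nonnegative on the support
  have hφ0 : ∀ i, 0 ≤ φ i * u i := by
    intro i
    have h1 : Function.update u i 0 ∈ P := by
      refine hP u (hMP hu) _ fun l => ?_
      by_cases hl : l = i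
      · subst hl
        rw [Function.update_self]
        exact Set.left_mem_uIcc
      · rw [Function.update_of_ne hl]
        exact Set.right_mem_uIcc
    have h2 := hφ _ h1
    have h3 : ∑ l, φ l * Function.update u i 0 l = ∑ l, φ l * u l - φ i * u i := by
      rw [← Finset.add_sum_erase _ _ (mem_univ i), ← Finset.add_sum_erase univ (fun l => φ l * u l)
        (mem_univ i), Function.update_self, mul_zero, zero_add]
      rw [add_sub_cancel_left]
      refine Finset.sum_congr rfl fun l hl => ?_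
      rw [Function.update_of_ne (ne_of_mem_erase hl)]
    rw [h3, hφu] at h2
    linarith
  have hφS : ∀ i, 0 < u i → 0 ≤ φ i := fun i hi => nonneg_of_mul_nonneg_left (hφ0 i) hi
  obtain ⟨i₁, hi₁⟩ : ∃ i, 0 < φ i * u i := by
    by_contra hcon
    push Not at hcon
    have : ∑ i, φ i * u i ≤ 0 := Finset.sum_nonpos fun i _ => hcon i
    linarith
  have hi₁u : 0 < u i₁ := by
    rcases hcase i₁ with h | h
    · exact h
    · rw [h, mul_zero] at hi₁
      exact absurd hi₁ (lt_irrefl _)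
  have hi₁φ : 0 < φ i₁ := (pos_iff_pos_of_mul_pos hi₁).2 hi₁u
  have hpow : ∀ i, 0 < δ ^ ρ i := fun i => pow_pos hδ _
  -- the easy case
  have easy : (∀ j, u j = 0 → φ j ≤ 0) → ∑ i, φ i * w i < 0 := by
    intro h
    have hle : ∀ i, φ i * w i ≤ 0 := by
      intro i
      rcases hcase i with hi | hi
      · rw [hw1 i hi]
        have h1 := hφS i hi
        have h2 : 0 < κ / 2 * δ ^ ρ i := mul_pos (by positivity) (hpow i)
        nlinarith
      · rw [hw2 i hi]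
        have h1 := h i hi
        have h2 : 0 < 2 * D * δ ^ ρ i := mul_pos (by positivity) (hpow i)
        nlinarith
    refine Finset.sum_neg' (fun i _ => hle i) ⟨i₁, mem_univ _, ?_⟩
    rw [hw1 i₁ hi₁u]
    have h2 : 0 < κ / 2 * δ ^ ρ i₁ := mul_pos (by positivity) (hpow i₁)
    nlinarith
  rcases hPO with ⟨i₀, j₀, hpl⟩ | hor
  swap
  · exact easy fun j hj => (hor u (hMP hu) φ hφ hφu j hj).le
  -- the planar case
  have hφl : ∀ l, l ≠ i₀ → l ≠ j₀ → φ l = 0 := by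
    intro l hl1 hl2
    have h0 : (0 : ι → ℝ) ∈ P := hP u (hMP hu) 0 fun i => Set.left_mem_uIcc
    have key : ∀ t : ℝ, φ l * t ≤ 1 := by
      intro t
      have h1 : (Pi.single l t : ι → ℝ) ∈ P := hpl 0 h0 _
        (by rw [Pi.single_eq_of_ne (Ne.symm hl1)]; rfl) (by rw [Pi.single_eq_of_ne (Ne.symm hl2)]; rfl)
      have h2 := hφ _ h1
      rw [Finset.sum_eq_single l] at h2
      · rwa [Pi.single_eq_same] at h2
      · intro j _ hj
        rw [Pi.single_eq_of_ne hj, mul_zero]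
      · intro h
        exact absurd (mem_univ l) h
    by_contra hne
    have := key (2 / φ l)
    rw [mul_div_cancel₀ _ hne] at this
    linarith
  by_cases hj : ∃ j, u j = 0 ∧ 0 < φ j
  swap
  · push Not at hj
    exact easy hj
  obtain ⟨j, hju, hjφ⟩ := hj
  have hij : i₁ ≠ j := fun h => by rw [h, hju] at hi₁u; exact lt_irrefl _ hi₁u
  have hsupp : ∀ l, l ≠ i₁ → l ≠ j → φ l = 0 := by
    intro l hl1 hl2
    by_contra hne
    have hl : l = i₀ ∨ l = j₀ := by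
      by_contra hcon
      push Not at hcon
      exact hne (hφl l hcon.1 hcon.2)
    have hi : i₁ = i₀ ∨ i₁ = j₀ := by
      by_contra hcon
      push Not at hcon
      exact hi₁φ.ne' (hφl i₁ hcon.1 hcon.2)
    have hj : j = i₀ ∨ j = j₀ := by
      by_contra hcon
      push Not at hcon
      exact hjφ.ne' (hφl j hcon.1 hcon.2)
    rcases hl with h | h <;> rcases hi with h' | h' <;> rcases hj with h'' | h'' <;>
      simp_all
  have hsum : ∀ y : ι → ℝ, ∑ l, φ l * y l = φ i₁ * y i₁ + φ j * y j := by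
    intro y
    rw [← Finset.add_sum_erase _ _ (mem_univ i₁)]
    rw [← Finset.add_sum_erase _ _ (mem_erase.2 ⟨hij.symm, mem_univ j⟩)]
    rw [Finset.sum_eq_zero, add_zero]
    intro l hl
    rw [hsupp l (ne_of_mem_erase (mem_of_mem_erase hl)) (ne_of_mem_erase hl), zero_mul]
  rw [hsum] at hφu ⊢
  rw [hju, mul_zero, add_zero] at hφu
  -- the pair is sharp
  have hsh : Shp M i₁ j := by
    refine ⟨hij, φ j / φ i₁, u i₁, div_pos hjφ hi₁φ, ⟨u, hu, rfl⟩, fun y hy => ?_⟩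
    have h1 := hφ y (hMP hy)
    rw [hsum] at h1
    rw [← hφu] at h1
    have h2 : y i₁ + φ j / φ i₁ * y j = (φ i₁ * y i₁ + φ j * y j) / φ i₁ := by
      field_simp
    rw [h2, div_le_iff₀ hi₁φ]
    linarith
  have hU : ∀ l, 0 < u l → ¬ Shp M i₁ l := by
    rintro l hl ⟨-, c, h, hc, ⟨y, hyM, hyh⟩, hall⟩
    have h1 := hall u hu
    have h2 : 0 < c * u l := mul_pos hc hl
    have hh : 0 ≤ h := by linarith
    have h3 : (Pi.single i₁ h : ι → ℝ) ∈ P := by
      refine hMP (hM y hyM _ fun m => ?_)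
      by_cases hm : m = i₁
      · subst hm
        rw [Pi.single_eq_same, hyh]
        exact Set.right_mem_uIcc
      · rw [Pi.single_eq_of_ne hm]
        exact Set.left_mem_uIcc
    have h4 := hφ _ h3
    rw [hsum, Pi.single_eq_same, Pi.single_eq_of_ne hij.symm, mul_zero, add_zero, ← hφu] at h4
    have h5 : h ≤ u i₁ := le_of_mul_le_mul_left h4 hi₁φ
    linarith
  have hlt := hρ i₁ hi₁u hU j hsh
  rw [hw1 i₁ hi₁u, hw2 j hju]
  have h1 : δ ^ ρ j ≤ δ * δ ^ ρ i₁ := by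
    rw [← pow_succ']
    exact pow_le_pow_of_le_one hδ.le hδ1 hlt
  have h2 : φ j ≤ B := (le_abs_self _).trans (hPB φ hφ j)
  have h3 : 1 ≤ φ i₁ * R := by
    rw [← hφu]
    exact mul_le_mul_of_nonneg_left (hR i₁) hi₁φ.le
  have hp := hpow i₁
  have hR0 : 0 < R := hi₁u.trans_le (hR i₁)
  have h4 : φ j * (2 * D * δ ^ ρ j) ≤ B * (2 * D * (δ * δ ^ ρ i₁)) := by
    have := hpow j
    gcongr
  have h5 : B * (2 * D * (δ * δ ^ ρ i₁)) * R < κ / 2 * δ ^ ρ i₁ := by
    have : B * (2 * D * (δ * δ ^ ρ i₁)) * R = (δ * (4 * D * B * R)) / 2 * δ ^ ρ i₁ := by ring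
    rw [this]
    exact mul_lt_mul_of_pos_right (by linarith) hp
  have h6 : κ / 2 * δ ^ ρ i₁ ≤ φ i₁ * (κ / 2 * δ ^ ρ i₁) * R := by
    have : 0 < κ / 2 * δ ^ ρ i₁ := by positivity
    nlinarith
  have h7 : B * (2 * D * (δ * δ ^ ρ i₁)) < φ i₁ * (κ / 2 * δ ^ ρ i₁) := by
    by_contra hcon
    push Not at hcon
    have := mul_le_mul_of_nonneg_right hcon hR0.le
    linarith
  linarith

/-- the sign pattern of a family of indices -/
def bt {N : ι → ℕ} (c : ∀ j, Fin (N j)) (j : ι) : Bool := decide ((c j : ℕ) = 0)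

/-- **The main theorem.** -/
theorem main {β : Type} [Fintype β] {E : ι → Type} [∀ j, NormedAddCommGroup (E j)]
    [∀ j, NormedSpace ℝ (E j)] [∀ j, FiniteDimensional ℝ (E j)]
    (C : ∀ j, Set (E j)) (hCc : ∀ j, Convex ℝ (C j))
    (hCk : ∀ j, IsCompact (C j)) (hC0 : ∀ j, (0 : E j) ∈ interior (C j))
    (N : ι → ℕ) (hN : ∀ j, 2 ≤ N j)
    (hcov : ∀ j, ∃ T : Finset (E j), T.card ≤ N j ∧
      C j ⊆ ⋃ t ∈ T, (fun x => t + x) '' interior (C j))
    (P : β → Set (ι → ℝ)) (hPc : ∀ b, Convex ℝ (P b)) (hPcl : ∀ b, IsClosed (P b))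
    (hP0 : ∀ b, (0 : ι → ℝ) ∈ interior (P b)) (hPs : ∀ b, Sol (P b))
    (hPO : ∀ b, Planar (P b) ∨ Ortho (P b))
    (K : Set (∀ j, E j)) (hK : K = {x | ∀ b, (fun j => gauge (C j) (x j)) ∈ P b})
    (hKb : Bornology.IsBounded K) :
    Convex ℝ K ∧ IsCompact K ∧ (0 : ∀ j, E j) ∈ interior K ∧
    ∃ T : Finset (∀ j, E j), T.card ≤ ∏ j, N j ∧
      K ⊆ ⋃ t ∈ T, (fun x => t + x) '' interior K := by
  classical
  set M : Set (ι → ℝ) := ⋂ b, P b with hM
  have hMc : Convex ℝ M := convex_iInter hPc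
  have hMcl : IsClosed M := isClosed_iInter hPcl
  have hM0 : (0 : ι → ℝ) ∈ interior M := by
    rw [hM, interior_iInter_of_finite]
    exact Set.mem_iInter.2 hP0
  have hMs : Sol M := by
    intro x hx y hy
    rw [hM, Set.mem_iInter] at hx ⊢
    exact fun b => hPs b x (hx b) y hy
  have hMP : ∀ b, M ⊆ P b := fun b => Set.iInter_subset _ b
  have hK' : K = {x | (fun j => gauge (C j) (x j)) ∈ M} := by
    rw [hK]
    ext x
    simp only [Set.mem_ofPred_eq, hM, Set.mem_iInter]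
  obtain ⟨hconv, hcomp, hint0, hint⟩ := body C hCc hC0 M hMc hMcl hM0 hMs K hK' hKb
  refine ⟨hconv, hcomp, hint0, ?_⟩
  -- constants
  choose v κ D hκ0 hκ1 hD1 hv1 hv2 using fun j =>
    Pool.Agent.H665R3.Lam.step (hCc j) (hCk j) (hC0 j) (hcov j)
  obtain ⟨κ₀, hκ₀0, hκ₀⟩ : ∃ κ₀ : ℝ, 0 < κ₀ ∧ ∀ j, κ₀ ≤ κ j := by
    rcases isEmpty_or_nonempty ι with hemp | hnonemp
    · exact ⟨1, one_pos, fun j => (hemp.false j).elim⟩
    · obtain ⟨j, -, hj⟩ := Finset.exists_min_image Finset.univ κ Finset.univ_nonempty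
      exact ⟨κ j, hκ0 j, fun i => hj i (Finset.mem_univ i)⟩
  obtain ⟨D₀, hD₀1, hD₀⟩ : ∃ D₀ : ℝ, 0 < D₀ ∧ ∀ j, D j ≤ D₀ := by
    rcases isEmpty_or_nonempty ι with hemp | hnonemp
    · exact ⟨1, one_pos, fun j => (hemp.false j).elim⟩
    · obtain ⟨j, -, hj⟩ := Finset.exists_max_image Finset.univ D Finset.univ_nonempty
      exact ⟨D j, one_pos.trans_le (hD1 j), fun i => hj i (Finset.mem_univ i)⟩
  obtain ⟨B, hB0, hB⟩ : ∃ B : ℝ, 0 < B ∧ ∀ b, ∀ φ ∈ Pol (P b), ∀ i, |φ i| ≤ B := by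
    choose B hB0 hB using fun b => pol_bdd (hP0 b)
    rcases isEmpty_or_nonempty β with hemp | hnonemp
    · exact ⟨1, one_pos, fun b => (hemp.false b).elim⟩
    · obtain ⟨b, -, hb⟩ := Finset.exists_max_image Finset.univ B Finset.univ_nonempty
      exact ⟨B b, hB0 b, fun b' φ hφ i => (hB b' φ hφ i).trans (hb b' (Finset.mem_univ b'))⟩
  have hGc : Continuous (fun (x : ∀ j, E j) (j : ι) => gauge (C j) (x j)) := by
    refine continuous_pi fun j => ?_
    exact (continuous_gauge (hCc j) (mem_interior_iff_mem_nhds.1 (hC0 j))).comp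
      (continuous_apply j)
  obtain ⟨R, hR0, hR⟩ : ∃ R : ℝ, 0 < R ∧ ∀ x ∈ K, ∀ j, gauge (C j) (x j) ≤ R := by
    obtain ⟨R, hR⟩ := (hcomp.image hGc).isBounded.exists_norm_le
    refine ⟨max R 1, lt_max_of_lt_right one_pos, ?_⟩
    intro x hx j
    have h1 := hR _ (Set.mem_image_of_mem _ hx)
    have h2 := norm_le_pi_norm (fun j => gauge (C j) (x j)) j
    exact ((le_abs_self _).trans (h2.trans h1)).trans (le_max_left _ _)
  obtain ⟨δ, hδ0, hδ1, hδ⟩ : ∃ δ : ℝ, 0 < δ ∧ δ ≤ 1 ∧ δ * (4 * D₀ * B * R) < κ₀ := by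
    have hpos : 0 < 4 * D₀ * B * R := by positivity
    refine ⟨min 1 (κ₀ / 2 / (4 * D₀ * B * R)), lt_min one_pos (by positivity), min_le_left _ _, ?_⟩
    have h1 : min 1 (κ₀ / 2 / (4 * D₀ * B * R)) * (4 * D₀ * B * R) ≤ κ₀ / 2 := by
      rw [← le_div_iff₀ hpos]
      exact min_le_right _ _
    linarith
  obtain ⟨ρ, -, hρ⟩ := scheme (Shp M) (Shp.irrefl M)
  set V : (∀ j, Fin (N j)) → ∀ j, E j := fun c j => δ ^ ρ (bt c) j • v j (c j) with hV
  have hpow : ∀ c i, 0 < δ ^ ρ (bt (N := N) c) i := fun c i => pow_pos hδ0 _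
  -- the pointwise statement
  have hpt : ∀ x ∈ K, ∃ (c : ∀ j, Fin (N j)) (ε : ℝ), 0 < ε ∧ ε ≤ 1 ∧ x - ε • V c ∈ interior K := by
    intro x hx
    set u : ι → ℝ := fun j => gauge (C j) (x j) with hu
    have hu0 : ∀ j, 0 ≤ u j := fun j => gauge_nonneg _
    have huM : u ∈ M := by
      rw [hK'] at hx
      exact hx
    have huR : ∀ j, u j ≤ R := fun j => hR x hx j
    choose cc hcc using fun j => hv2 j (x j)
    obtain ⟨σ, hσ1, hσ2⟩ := hρ (univ.filter fun j => 0 < u j) (bt cc)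
    have hpick : ∀ j, ∃ d : Fin (N j), (0 < u j → d = cc j) ∧ decide ((d : ℕ) = 0) = σ j := by
      intro j
      by_cases hj : 0 < u j
      · exact ⟨cc j, fun _ => rfl, (hσ1 j (mem_filter.2 ⟨mem_univ j, hj⟩)).symm⟩
      · cases h : σ j
        · exact ⟨⟨1, by have := hN j; omega⟩, fun h => absurd h hj, rfl⟩
        · exact ⟨⟨0, by have := hN j; omega⟩, fun h => absurd h hj, rfl⟩
    choose c hc1 hc2' using hpick
    have hc2 : bt c = σ := funext hc2'
    have hρ' : ∀ i, 0 < u i → (∀ l, 0 < u l → ¬ Shp M i l) → ∀ j, Shp M i j →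
        ρ (bt c) i < ρ (bt c) j := by
      intro i hi hil j hij
      rw [hc2]
      exact hσ2 i (mem_filter.2 ⟨mem_univ i, hi⟩) (fun l hl => hil l (mem_filter.1 hl).2) j hij
    set w : ι → ℝ := fun i => if 0 < u i then -(κ₀ / 2 * δ ^ ρ (bt c) i) else
      2 * D₀ * δ ^ ρ (bt c) i with hw
    have hw1 : ∀ i, 0 < u i → w i = -(κ₀ / 2 * δ ^ ρ (bt c) i) := fun i hi => if_pos hi
    have hw2 : ∀ i, u i = 0 → w i = 2 * D₀ * δ ^ ρ (bt c) i := fun i hi => if_neg (by rw [hi]; simp)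
    have hpc : ∀ b, ∃ ε₀ : ℝ, 0 < ε₀ ∧ ∀ ε : ℝ, 0 < ε → ε ≤ ε₀ → u + ε • w ∈ P b := fun b =>
      piece (hPc b) (hPcl b) (hP0 b) (hMP b huM) fun φ hφ hφu =>
        descent (hMP b) (hPs b) hMs (hPO b) huM hu0 hκ₀0 hD₀1 hδ0 hδ1 hB0 huR hδ (hB b) hρ'
          hw1 hw2 hφ hφu
    choose εb hεb0 hεb using hpc
    -- a small number
    obtain ⟨ε, hε0, hε1, hεb', hεu⟩ : ∃ ε : ℝ, 0 < ε ∧ ε ≤ 1 ∧ (∀ b, ε ≤ εb b) ∧
        ∀ j, 0 < u j → ε ≤ u j := by
      obtain ⟨e1, h1, h1'⟩ : ∃ e : ℝ, 0 < e ∧ ∀ b, e ≤ εb b := by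
        rcases isEmpty_or_nonempty β with hemp | hnonemp
        · exact ⟨1, one_pos, fun b => (hemp.false b).elim⟩
        · obtain ⟨b, -, hb⟩ := Finset.exists_min_image Finset.univ εb Finset.univ_nonempty
          exact ⟨εb b, hεb0 b, fun b' => hb b' (Finset.mem_univ b')⟩
      obtain ⟨e2, h2, h2'⟩ : ∃ e : ℝ, 0 < e ∧ ∀ j, 0 < u j → e ≤ u j := by
        rcases (univ.filter fun j => 0 < u j).eq_empty_or_nonempty with he | hne
        · refine ⟨1, one_pos, fun j hj => ?_⟩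
          have : j ∈ univ.filter fun j => 0 < u j := mem_filter.2 ⟨mem_univ j, hj⟩
          rw [he] at this
          exact absurd this (notMem_empty j)
        · obtain ⟨j, hj, hb⟩ := Finset.exists_min_image _ u hne
          exact ⟨u j, (mem_filter.1 hj).2, fun j' hj' => hb j' (mem_filter.2 ⟨mem_univ j', hj'⟩)⟩
      exact ⟨min 1 (min e1 e2), lt_min one_pos (lt_min h1 h2), min_le_left _ _,
        fun b => ((min_le_right _ _).trans (min_le_left _ _)).trans (h1' b),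
        fun j hj => ((min_le_right _ _).trans (min_le_right _ _)).trans (h2' j hj)⟩
    refine ⟨c, ε, hε0, hε1, hint _ ?_⟩
    have hp : u + ε • w ∈ M := by
      rw [hM, Set.mem_iInter]
      exact fun b => hεb b ε hε0 (hεb' b)
    refine interior_of_lt hMc hM0 hMs hp (fun j => gauge_nonneg _) fun j => ?_
    have hpj := hpow c j
    have hpj1 : δ ^ ρ (bt c) j ≤ 1 := pow_le_one₀ hδ0.le hδ1
    have e1 : (x - ε • V c) j = x j - (ε * δ ^ ρ (bt c) j) • v j (c j) := by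
      rw [Pi.sub_apply, Pi.smul_apply, hV]
      dsimp only
      rw [smul_smul]
    rw [e1, Pi.add_apply, Pi.smul_apply, smul_eq_mul]
    have hs0 : 0 < ε * δ ^ ρ (bt c) j := mul_pos hε0 hpj
    rcases (hu0 j).lt_or_eq with hj | hj
    · have h1 := hcc j (ε * δ ^ ρ (bt c) j) hs0.le (by
        refine le_trans ?_ (hεu j hj)
        nlinarith)
      rw [← hc1 j hj] at h1
      rw [hw1 j hj]
      have h2 := mul_le_mul_of_nonneg_right (hκ₀ j) hs0.le
      have h3 : 0 < κ₀ * (ε * δ ^ ρ (bt c) j) := mul_pos hκ₀0 hs0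
      have h4 : u j = gauge (C j) (x j) := rfl
      rw [h4]
      nlinarith
    · have h1 := hv1 j (c j) (x j) (ε * δ ^ ρ (bt c) j) hs0.le
      rw [hw2 j hj.symm]
      have h2 := mul_le_mul_of_nonneg_right (hD₀ j) hs0.le
      have h3 : 0 < D₀ * (ε * δ ^ ρ (bt c) j) := mul_pos hD₀1 hs0
      have h4 : u j = gauge (C j) (x j) := rfl
      rw [h4]
      nlinarith
  -- compactness
  set U : ℕ → Set (∀ j, E j) := fun m => {x | ∃ (c : ∀ j, Fin (N j)) (ε : ℝ),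
    1 / ((m : ℝ) + 1) ≤ ε ∧ ε ≤ 1 ∧ x - ε • V c ∈ interior K} with hU
  have hUo : ∀ m, IsOpen (U m) := by
    intro m
    have : U m = ⋃ (c : ∀ j, Fin (N j)), ⋃ (ε : ℝ), ⋃ (_ : 1 / ((m : ℝ) + 1) ≤ ε ∧ ε ≤ 1),
        {x | x - ε • V c ∈ interior K} := by
      ext x
      simp only [hU, Set.mem_ofPred_eq, Set.mem_iUnion, exists_prop, and_assoc]
    rw [this]
    refine isOpen_iUnion fun c => isOpen_iUnion fun ε => isOpen_iUnion fun _ => ?_
    exact isOpen_interior.preimage (continuous_id.sub continuous_const)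
  have hUm : Monotone U := by
    rintro m m' hmm x ⟨c, ε, h1, h2, h3⟩
    refine ⟨c, ε, le_trans ?_ h1, h2, h3⟩
    have : (m : ℝ) ≤ m' := by exact_mod_cast hmm
    exact one_div_le_one_div_of_le (by positivity) (by linarith)
  have hUc : K ⊆ ⋃ m, U m := by
    intro x hx
    obtain ⟨c, ε, h1, h2, h3⟩ := hpt x hx
    obtain ⟨m, hm⟩ := exists_nat_one_div_lt h1
    exact Set.mem_iUnion.2 ⟨m, c, ε, hm.le, h2, h3⟩
  obtain ⟨m, hm⟩ := hcomp.elim_directed_cover U hUo hUc hUm.directed_le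
  set ε₁ : ℝ := 1 / ((m : ℝ) + 1) with hε₁
  have hε₁0 : 0 < ε₁ := by positivity
  refine ⟨Finset.univ.image fun c : (∀ j, Fin (N j)) => ε₁ • V c, ?_, ?_⟩
  · refine Finset.card_image_le.trans ?_
    rw [Finset.card_univ, Fintype.card_pi]
    simp
  · intro x hx
    obtain ⟨c, ε, h1, h2, h3⟩ := hm hx
    have hε0 : 0 < ε := hε₁0.trans_le h1
    have hy : x - ε₁ • V c ∈ interior K := by
      have h4 : (1 - ε₁ / ε) • x + (ε₁ / ε) • (x - ε • V c) = x - ε₁ • V c := by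
        rw [smul_sub, smul_smul, div_mul_cancel₀ _ hε0.ne', sub_smul, one_smul]
        abel
      rw [← h4]
      exact hconv.combo_self_interior_mem_interior hx h3
        (sub_nonneg.2 ((div_le_one hε0).2 h1)) (by positivity) (by ring)
    refine Set.mem_iUnion₂.2 ⟨_, Finset.mem_image_of_mem _ (Finset.mem_univ c), _, hy, ?_⟩
    simp

end Pool.Agent.N148.HD
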