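import Mathlib
import Pool.Agent.N148.HD.Main

/-!
# Unconditional bodies
-/

set_option autoImplicit false

namespace Pool.Agent.N148.HD

open Finset
open Pool.Agent.R753 (Sol)

variable {ι : Type} [Fintype ι]

/-- symmetric about the coordinate hyperplanes -/
def Unc (P : Set (ι → ℝ)) : Prop := ∀ x ∈ P, ∀ y : ι → ℝ, (∀ i, |y i| = |x i|) → y ∈ P

lemma unc_le [DecidableEq ι] {P : Set (ι → ℝ)} (hc : Convex ℝ P) (hu : Unc P) :
    ∀ x ∈ P, ∀ y : ι → ℝ, (∀ i, |y i| ≤ |x i|) → y ∈ P := by
  have key : ∀ s : Finset ι, ∀ x ∈ P, ∀ y : ι → ℝ, (∀ i ∈ s, |y i| ≤ |x i|) →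
      (∀ i, i ∉ s → y i = x i) → y ∈ P := by
    intro s
    induction s using Finset.induction_on with
    | empty =>
      intro x hx y _ h
      have : y = x := funext fun i => h i (notMem_empty i)
      rw [this]
      exact hx
    | insert a s ha ih =>
      intro x hx y h1 h2
      have hx' : Function.update x a (y a) ∈ P := by
        have hxm : Function.update x a (-x a) ∈ P := by
          refine hu x hx _ fun i => ?_
          by_cases hi : i = a
          · subst hi
            rw [Function.update_self, abs_neg]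
          · rw [Function.update_of_ne hi]
        have hya := h1 a (mem_insert_self a s)
        by_cases hxa : x a = 0
        · rw [hxa, abs_zero] at hya
          have : y a = x a := by rw [hxa]; exact abs_nonpos_iff.1 hya
          rw [this, Function.update_eq_self]
          exact hx
        · have hxa' : 0 < |x a| := abs_pos.2 hxa
          set t : ℝ := (1 + y a / x a) / 2 with ht
          have hq : |y a / x a| ≤ 1 := by
            rw [abs_div, div_le_one hxa']
            exact hya
          obtain ⟨h3, h4⟩ := abs_le.1 hq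
          have h5 : t • x + (1 - t) • Function.update x a (-x a) ∈ P :=
            hc hx hxm (by rw [ht]; linarith) (by rw [ht]; linarith) (by ring)
          have h6 : t • x + (1 - t) • Function.update x a (-x a) = Function.update x a (y a) := by
            funext i
            simp only [Pi.add_apply, Pi.smul_apply, smul_eq_mul]
            by_cases hi : i = a
            · subst hi
              rw [Function.update_self, Function.update_self, ht]
              field_simp
              ring
            · rw [Function.update_of_ne hi, Function.update_of_ne hi]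
              ring
          rw [← h6]
          exact h5
      refine ih _ hx' y (fun i hi => ?_) fun i hi => ?_
      · have hia : i ≠ a := fun h => ha (h ▸ hi)
        rw [Function.update_of_ne hia]
        exact h1 i (mem_insert_of_mem hi)
      · by_cases hia : i = a
        · subst hia
          rw [Function.update_self]
        · rw [Function.update_of_ne hia]
          exact h2 i fun h => (mem_insert.1 h).elim hia hi
  intro x hx y h
  exact key univ x hx y (fun i _ => h i) fun i hi => absurd (mem_univ i) hi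

lemma sol_of_unc [DecidableEq ι] {P : Set (ι → ℝ)} (hc : Convex ℝ P) (hu : Unc P) : Sol P := by
  intro x hx y hy
  refine unc_le hc hu x hx y fun i => ?_
  have h := hy i
  rw [Set.mem_uIcc] at h
  rcases h with ⟨h1, h2⟩ | ⟨h1, h2⟩
  · rw [abs_of_nonneg h1, abs_of_nonneg (h1.trans h2)]
    exact h2
  · rw [abs_of_nonpos h2, abs_of_nonpos (h1.trans h2)]
    linarith

lemma interval_cov : ∃ T : Finset ℝ, T.card ≤ 2 ∧
    Metric.closedBall (0 : ℝ) 1 ⊆ ⋃ t ∈ T, (fun x => t + x) '' interior (Metric.closedBall (0 : ℝ) 1) := by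
  refine ⟨{1 / 2, -(1 / 2)}, card_le_two, fun x hx => ?_⟩
  rw [Real.closedBall_eq_Icc, Set.mem_Icc] at hx
  rw [interior_closedBall _ one_ne_zero]
  simp only [Set.mem_iUnion, Set.mem_image, exists_prop]
  rcases le_total 0 x with h | h
  · refine ⟨1 / 2, by simp, x - 1 / 2, ?_, by ring⟩
    rw [Real.ball_eq_Ioo, Set.mem_Ioo]
    constructor <;> linarith [hx.1, hx.2]
  · refine ⟨-(1 / 2), by simp, x + 1 / 2, ?_, by ring⟩
    rw [Real.ball_eq_Ioo, Set.mem_Ioo]
    constructor <;> linarith [hx.1, hx.2]

/-- **Unconditional bodies**, with the space `ι → ℝ`. -/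
theorem unc_main {β : Type} [Fintype β] (P : β → Set (ι → ℝ)) (hPc : ∀ b, Convex ℝ (P b))
    (hPcl : ∀ b, IsClosed (P b)) (hP0 : ∀ b, (0 : ι → ℝ) ∈ interior (P b))
    (hPu : ∀ b, Unc (P b)) (hPO : ∀ b, Planar (P b) ∨ Ortho (P b))
    (K : Set (ι → ℝ)) (hK : K = {x | ∀ b, x ∈ P b}) (hKb : Bornology.IsBounded K) :
    Convex ℝ K ∧ IsCompact K ∧ (0 : ι → ℝ) ∈ interior K ∧
    ∃ T : Finset (ι → ℝ), T.card ≤ 2 ^ Fintype.card ι ∧
      K ⊆ ⋃ t ∈ T, (fun x => t + x) '' interior K := by
  classical
  have hgauge : ∀ x : ι → ℝ, ∀ j, gauge (Metric.closedBall (0 : ℝ) 1) (x j) = |x j| := by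
    intro x j
    rw [gauge_closedBall zero_le_one, div_one, Real.norm_eq_abs]
  have hK' : K = {x : ι → ℝ | ∀ b, (fun j => gauge (Metric.closedBall (0 : ℝ) 1) (x j)) ∈ P b} := by
    rw [hK]
    ext x
    simp only [Set.mem_ofPred_eq]
    have e : (fun j => gauge (Metric.closedBall (0 : ℝ) 1) (x j)) = fun j => |x j| :=
      funext fun j => hgauge x j
    rw [e]
    refine forall_congr' fun b => ⟨fun h => ?_, fun h => ?_⟩
    · exact hPu b x h _ fun i => abs_abs _
    · exact hPu b _ h _ fun i => (abs_abs _).symm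
  have h := main (fun _ : ι => Metric.closedBall (0 : ℝ) 1)
    (fun _ => convex_closedBall _ _) (fun _ => isCompact_closedBall _ _)
    (fun _ => by rw [interior_closedBall _ one_ne_zero]; simp) (fun _ => 2) (fun _ => le_rfl)
    (fun _ => interval_cov) P hPc hPcl hP0 (fun b => sol_of_unc (hPc b) (hPu b)) hPO K hK' hKb
  refine ⟨h.1, h.2.1, h.2.2.1, ?_⟩
  obtain ⟨T, hT, hT2⟩ := h.2.2.2
  refine ⟨T, ?_, hT2⟩
  rwa [Finset.prod_const, Finset.card_univ] at hT

/-- transfer to Euclidean space -/
theorem transfer {n : ℕ} (K : Set (EuclideanSpace ℝ (Fin n))) (N : ℕ)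
    (h : ∃ T : Finset (Fin n → ℝ), T.card ≤ N ∧
      (WithLp.ofLp '' K) ⊆ ⋃ t ∈ T, (fun x => t + x) '' interior (WithLp.ofLp '' K)) :
    ∃ T : Finset (EuclideanSpace ℝ (Fin n)), T.card ≤ N ∧
      K ⊆ ⋃ t ∈ T, (fun x => t + x) '' interior K := by
  classical
  obtain ⟨T, hT, hT2⟩ := h
  have hint : interior (WithLp.ofLp '' K) = WithLp.ofLp '' interior K := by
    have := (EuclideanSpace.equiv (Fin n) ℝ).toHomeomorph.image_interior K
    exact this.symm
  refine ⟨T.image (WithLp.toLp 2), card_image_le.trans hT, fun x hx => ?_⟩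
  have h1 := hT2 (Set.mem_image_of_mem _ hx)
  rw [hint] at h1
  simp only [Set.mem_iUnion, Set.mem_image, exists_prop] at h1
  obtain ⟨t, ht, y, ⟨z, hz, rfl⟩, hy⟩ := h1
  refine Set.mem_iUnion₂.2 ⟨WithLp.toLp 2 t, mem_image_of_mem _ ht, z, hz, ?_⟩
  show WithLp.toLp 2 t + z = x
  have : WithLp.toLp 2 (t + WithLp.ofLp z) = WithLp.toLp 2 (WithLp.ofLp x) := by rw [hy]
  rw [WithLp.toLp_add, WithLp.toLp_ofLp, WithLp.toLp_ofLp] at this
  exact this

/-- **Bodies determined by their sections with the coordinate planes**, with the space `ι → ℝ`. -/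
theorem sections_main (K : Set (ι → ℝ)) (hK : Convex ℝ K) (hKc : IsCompact K)
    (hKi : (interior K).Nonempty) (hu : Unc K)
    (hpl : ∀ x : ι → ℝ, (∀ i j, ∃ y ∈ K, ∀ l, (l = i ∨ l = j) → |x l| ≤ |y l|) → x ∈ K) :
    ∃ T : Finset (ι → ℝ), T.card ≤ 2 ^ Fintype.card ι ∧
      K ⊆ ⋃ t ∈ T, (fun x => t + x) '' interior K := by
  classical
  have hsolid := unc_le hK hu
  have h0 : (0 : ι → ℝ) ∈ interior K := by
    obtain ⟨x, hx⟩ := hKi
    have h1 : -x ∈ K := hu x (interior_subset hx) _ fun i => by rw [Pi.neg_apply, abs_neg]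
    have h2 := hK.combo_interior_self_mem_interior hx h1 (show (0 : ℝ) < 1 / 2 by norm_num)
      (show (0 : ℝ) ≤ 1 / 2 by norm_num) (by norm_num)
    rwa [smul_neg, add_neg_cancel] at h2
  set pr : ι × ι → (ι → ℝ) → ι → ℝ := fun b x l => if l = b.1 ∨ l = b.2 then x l else 0 with hpr
  have hprc : ∀ b, Continuous (pr b) := by
    intro b
    refine continuous_pi fun l => ?_
    rw [hpr]
    dsimp only
    by_cases h : l = b.1 ∨ l = b.2
    · simp only [if_pos h]
      exact continuous_apply l
    · simp only [if_neg h]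
      exact continuous_const
  have hprl : ∀ b (x y : ι → ℝ) (s t : ℝ), pr b (s • x + t • y) = s • pr b x + t • pr b y := by
    intro b x y s t
    funext l
    simp only [hpr, Pi.add_apply, Pi.smul_apply, smul_eq_mul]
    split_ifs <;> simp
  have hprabs : ∀ b (x : ι → ℝ) l, |pr b x l| ≤ |x l| := by
    intro b x l
    simp only [hpr]
    split_ifs
    · exact le_rfl
    · rw [abs_zero]
      exact abs_nonneg _
  have hmain := unc_main (β := ι × ι) (fun b => pr b ⁻¹' K) (fun b x hx y hy s t hs ht hst => by
      rw [Set.mem_preimage] at hx hy ⊢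
      rw [hprl]
      exact hK hx hy hs ht hst)
    (fun b => hKc.isClosed.preimage (hprc b)) (fun b => by
      refine mem_interior.2 ⟨pr b ⁻¹' interior K, Set.preimage_mono interior_subset,
        isOpen_interior.preimage (hprc b), ?_⟩
      rw [Set.mem_preimage]
      have : pr b 0 = 0 := by
        funext l
        simp [hpr]
      rw [this]
      exact h0)
    (fun b x hx y hxy => by
      rw [Set.mem_preimage] at hx ⊢
      refine hu _ hx _ fun l => ?_
      simp only [hpr]
      split_ifs
      · exact hxy l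
      · rfl)
    (fun b => Or.inl ⟨b.1, b.2, fun x hx y h1 h2 => by
      rw [Set.mem_preimage] at hx ⊢
      have : pr b y = pr b x := by
        funext l
        simp only [hpr]
        by_cases h : l = b.1 ∨ l = b.2
        · rw [if_pos h, if_pos h]
          rcases h with h | h
          · rw [h, h1]
          · rw [h, h2]
        · rw [if_neg h, if_neg h]
      rw [this]
      exact hx⟩)
    K (by
      ext x
      rw [Set.mem_ofPred_eq]
      refine ⟨fun hx b => ?_, fun hx => hpl x fun i j => ⟨pr (i, j) x, hx (i, j), fun l hl => ?_⟩⟩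
      · rw [Set.mem_preimage]
        exact hsolid x hx _ (hprabs b x)
      · simp only [hpr]
        rw [if_pos hl])
    hKc.isBounded
  exact hmain.2.2.2

end Pool.Agent.N148.HD
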